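import Pool.Agent.H37.CNS.Stmts
import Mathlib.FieldTheory.PurelyInseparable.PerfectClosure
import Mathlib.FieldTheory.KummerPolynomial

/-!
# Board `cns` (helper37), row DER: the derivation `d / dt` of a cover
-/

set_option autoImplicit false

namespace Pool.CND

open Polynomial IntermediateField

section der

variable {k L : Type} [Field k] [Field L] [Algebra k L]

/-- a cover is separable over `k(t)` -/
theorem der_sep {G : Type} [Group G] [Finite G] (ρ : G →* (L ≃ₐ[k] L)) (t : L)
    (h : IsCover ρ t) : Algebra.IsSeparable (adjoin k {t}) L := by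
  let H : Subgroup (L ≃ₐ[k] L) := ρ.range
  have hHf : Finite H := by
    have h2 : (Set.range ρ).Finite := Set.finite_range ρ
    have h3 : (H : Set (L ≃ₐ[k] L)) = Set.range ρ := MonoidHom.coe_range ρ
    have : (H : Set (L ≃ₐ[k] L)).Finite := by rw [h3]; exact h2
    exact this.to_subtype
  have hE : fixedField H = adjoin k {t} := by
    ext z
    rw [mem_fixedField_iff, ← h.fixed]
    constructor
    · intro h4 g
      exact h4 (ρ g) ⟨g, rfl⟩
    · rintro h4 f ⟨g, rfl⟩
      exact h4 g
  have hsep : Algebra.IsSeparable (fixedField H) L :=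
    (inferInstance : Algebra.IsSeparable (FixedPoints.subfield H L) L)
  rw [← hE]
  exact hsep

theorem der_trans (p : ℕ) (hp : p.Prime) (t s : L) (ht : Transcendental k t)
    (hs : s ∈ adjoin k {t}) : s ^ p ≠ t := by
  intro hst
  obtain ⟨r, q, hrq⟩ := (mem_adjoin_simple_iff k s).1 hs
  have ht0 : t ≠ 0 := by
    intro h
    rw [h] at ht
    exact ht isAlgebraic_zero
  have hinj : ∀ f : k[X], aeval t f = 0 → f = 0 := fun f hf =>
    (transcendental_iff.1 ht) f hf
  have hq : aeval t q ≠ 0 := by
    intro h
    rw [h, div_zero] at hrq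
    rw [hrq, zero_pow hp.ne_zero] at hst
    exact ht0 hst.symm
  have hr : aeval t r ≠ 0 := by
    intro h
    rw [h, zero_div] at hrq
    rw [hrq, zero_pow hp.ne_zero] at hst
    exact ht0 hst.symm
  have h1 : X * q ^ p = r ^ p := by
    rw [← sub_eq_zero]
    apply hinj
    rw [map_sub, map_mul, map_pow, map_pow, aeval_X, sub_eq_zero]
    rw [hrq, div_pow, div_eq_iff (pow_ne_zero _ hq)] at hst
    exact hst.symm
  have hq0 : q ≠ 0 := fun h => hq (by rw [h, map_zero])
  have hr0 : r ≠ 0 := fun h => hr (by rw [h, map_zero])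
  have h2 := congrArg natDegree h1
  rw [natDegree_X_mul (pow_ne_zero _ hq0), natDegree_pow, natDegree_pow] at h2
  have h3 : p ∣ 1 := by
    have h4 : p ∣ p * q.natDegree + 1 := by
      rw [h2]
      exact dvd_mul_right _ _
    exact (Nat.dvd_add_right (dvd_mul_right p _)).1 h4
  exact hp.one_lt.ne' (Nat.dvd_one.1 h3)

theorem der_iter {R : Type} [CommRing R] (p : ℕ) (hp : p.Prime) [CharP R p] (f : R[X]) :
    (⇑(derivative (R := R)))^[p] f = 0 := by
  rw [← factorial_smul_hasseDeriv]
  have h : ((p.factorial : ℕ) : R[X]) = 0 := by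
    rw [CharP.cast_eq_zero_iff R[X] p]
    exact (Nat.Prime.dvd_factorial hp).2 le_rfl
  rw [LinearMap.smul_apply, nsmul_eq_mul, h, zero_mul]

end der

theorem der_thm : S_DER := by
  intro p k L G _ _ _ _ _ _ ρ t hp hk hcov
  have := hk
  have hF : Fact p.Prime := ⟨hp⟩
  have hcL : CharP L p := charP_of_injective_algebraMap (algebraMap k L).injective p
  have hsep := der_sep ρ t hcov
  let M : Subfield L := (frobenius L p).fieldRange
  have hmem : ∀ x : L, x ∈ M ↔ ∃ w : L, w ^ p = x := fun x => Iff.rfl
  have hcM : CharP M p := by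
    have : Function.Injective (algebraMap M L) := (algebraMap M L).injective
    exact (RingHom.charP_iff (algebraMap M L) this p).2 hcL
  have hkM : ∀ c : k, algebraMap k L c ∈ M := by
    intro c
    obtain ⟨b, hb⟩ := IsAlgClosed.exists_pow_nat_eq c hp.pos
    exact ⟨algebraMap k L b, by rw [frobenius_def, ← map_pow, hb]⟩
  have hpowM : ∀ x : L, x ^ p ∈ M := fun x => ⟨x, rfl⟩
  -- the element t is not in M
  have htM : t ∉ M := by
    rintro ⟨s, hs⟩
    rw [frobenius_def] at hs
    have hcK : CharP (adjoin k {t}) p :=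
      charP_of_injective_algebraMap (algebraMap k (adjoin k {t})).injective p
    have : ExpChar (adjoin k {t}) p := ExpChar.prime hp
    have h1 : s ∈ perfectClosure (adjoin k {t}) L := by
      rw [mem_perfectClosure_iff_pow_mem p]
      refine ⟨1, ?_⟩
      rw [pow_one, hs]
      exact ⟨⟨t, mem_adjoin_simple_self k t⟩, rfl⟩
    rw [perfectClosure.eq_bot_of_isSeparable, IntermediateField.mem_bot] at h1
    obtain ⟨⟨z, hz⟩, hz'⟩ := h1
    have hz2 : z = s := hz'
    rw [hz2] at hz
    exact der_trans p hp t s hcov.trans hz hs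
  -- L = M(t)
  let N : IntermediateField M L := adjoin M {t}
  have hMN : ∀ x ∈ M, x ∈ N := fun x hx => N.algebraMap_mem ⟨x, hx⟩
  have hKN : ∀ x ∈ adjoin k {t}, x ∈ N := by
    let N1 : IntermediateField k L := N.toSubfield.toIntermediateField
      (fun c => hMN _ (hkM c))
    have h1 : adjoin k {t} ≤ N1 := by
      rw [adjoin_simple_le_iff]
      exact mem_adjoin_simple_self M t
    exact fun x hx => h1 hx
  have hN : ∀ x : L, x ∈ N := by
    intro x
    let N2 : IntermediateField (adjoin k {t}) L := N.toSubfield.toIntermediateField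
      (fun c => hKN _ c.2)
    have hcK : CharP (adjoin k {t}) p :=
      charP_of_injective_algebraMap (algebraMap k (adjoin k {t})).injective p
    have : ExpChar (adjoin k {t}) p := ExpChar.prime hp
    have h1 : IsSeparable (adjoin k {t}) x := Algebra.IsSeparable.isSeparable _ x
    have h2 := adjoin_simple_eq_adjoin_pow_expChar_of_isSeparable (adjoin k {t}) L h1 p
    have h3 : adjoin (adjoin k {t}) {x ^ p} ≤ N2 := by
      rw [adjoin_simple_le_iff]
      exact hMN _ (hpowM x)
    have h4 : x ∈ adjoin (adjoin k {t}) {x ^ p} := by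
      rw [← h2]
      exact mem_adjoin_simple_self _ x
    exact h3 h4
  let c : M := ⟨t ^ p, hpowM t⟩
  have hirr : Irreducible (X ^ p - C c : M[X]) := by
    apply X_pow_sub_C_irreducible_of_prime hp
    intro b hb
    have h1 : (b : L) ^ p = t ^ p := congrArg Subtype.val hb
    have h2 : (b : L) = t := frobenius_inj L p h1
    exact htM (h2 ▸ b.2)
  have hroot : aeval t (X ^ p - C c : M[X]) = 0 := by
    rw [map_sub, map_pow, aeval_X, aeval_C]
    exact sub_self _
  have hmonic : (X ^ p - C c : M[X]).Monic := monic_X_pow_sub_C c hp.ne_zero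
  have hmin : (X ^ p - C c : M[X]) = minpoly M t :=
    minpoly.eq_of_irreducible_of_monic hirr hroot hmonic
  have halg : IsAlgebraic M t := ⟨_, hmonic.ne_zero, hroot⟩
  have hsurj : Function.Surjective (aeval t : M[X] →ₐ[M] L) := by
    intro x
    have h1 : x ∈ (adjoin M {t}).toSubalgebra := hN x
    rw [adjoin_simple_toSubalgebra_of_isAlgebraic halg,
      Algebra.adjoin_singleton_eq_range_aeval] at h1
    exact h1
  have hder : derivative (X ^ p - C c : M[X]) = 0 := by
    rw [derivative_sub, derivative_X_pow, derivative_C, sub_zero, CharP.cast_eq_zero, C_0,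
      zero_mul]
  have hker : ∀ f : M[X], aeval t f = 0 → aeval t (derivative' f : M[X]) = 0 := by
    intro f hf
    obtain ⟨g, hg⟩ := minpoly.dvd M t hf
    rw [← hmin] at hg
    show aeval t (derivative f) = 0
    rw [hg, derivative_mul, hder, zero_mul, zero_add, map_mul, hroot, zero_mul]
  let D0 : Derivation M L L := Derivation.liftOfSurjective hsurj hker
  have hD0 : ∀ f : M[X], D0 (aeval t f) = aeval t (derivative f) := fun f =>
    Derivation.liftOfSurjective_apply hsurj hker f
  let D1 : L →ₗ[k] L :=
    { toFun := D0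
      map_add' := fun x y => map_add D0 x y
      map_smul' := fun a x => by
        have h1 : a • x = (⟨algebraMap k L a, hkM a⟩ : M) • x := Algebra.smul_def a x
        have h2 : a • D0 x = (⟨algebraMap k L a, hkM a⟩ : M) • D0 x := Algebra.smul_def a (D0 x)
        rw [RingHom.id_apply, h1, h2]
        exact D0.map_smul _ x }
  let D : Derivation k L L := Derivation.mk' D1 (fun a b => D0.leibniz a b)
  have hD : ∀ f : M[X], D (aeval t f) = aeval t (derivative f) := hD0
  refine ⟨D, ?_, ?_, ?_⟩
  · have h1 := hD X
    rw [aeval_X, derivative_X, map_one] at h1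
    exact h1
  · intro y hy
    obtain ⟨f, rfl⟩ := hsurj y
    set r := f %ₘ (X ^ p - C c : M[X]) with hr
    have h1 : aeval t r = aeval t f := aeval_modByMonic_eq_self_of_root hroot
    have hdeg : r.degree < (p : ℕ) := by
      have := degree_modByMonic_lt f hmonic
      rwa [degree_X_pow_sub_C hp.pos] at this
    rw [← h1, hD] at hy
    have hr' : derivative r = 0 := by
      have h2 := minpoly.dvd M t hy
      rw [← hmin] at h2
      apply eq_zero_of_dvd_of_degree_lt h2
      rw [degree_X_pow_sub_C hp.pos]
      exact lt_of_le_of_lt (degree_derivative_le) hdeg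
    have hrC : r = C (r.coeff 0) := by
      refine Polynomial.ext fun n => ?_
      rcases Nat.eq_zero_or_pos n with h0 | h0
      · subst h0
        rw [coeff_C_zero]
      · rw [coeff_C_of_ne_zero h0.ne']
        by_cases hn : n < p
        · have h2 := congrArg (fun g => coeff g (n - 1)) hr'
          simp only [coeff_derivative, coeff_zero] at h2
          rw [Nat.sub_add_cancel h0] at h2
          have h3 : ((n - 1 : ℕ) : M) + 1 = (n : M) := by
            have : ((n - 1 : ℕ) : M) + 1 = ((n - 1 + 1 : ℕ) : M) := by push_cast; rfl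
            rw [this, Nat.sub_add_cancel h0]
          rw [h3] at h2
          rcases mul_eq_zero.1 h2 with h4 | h4
          · exact h4
          · exact absurd (Nat.le_of_dvd h0 ((CharP.cast_eq_zero_iff M p n).1 h4)) (by omega)
        · apply coeff_eq_zero_of_degree_lt
          exact lt_of_lt_of_le hdeg (by exact_mod_cast Nat.le_of_not_lt hn)
    obtain ⟨w, hw⟩ := (r.coeff 0).2
    refine ⟨w, ?_⟩
    rw [← h1, hrC, aeval_C]
    exact hw.symm
  · intro y
    obtain ⟨f, rfl⟩ := hsurj y
    have h1 : ∀ n : ℕ, (⇑D)^[n] (aeval t f) = aeval t ((⇑(derivative (R := M)))^[n] f) := by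
      intro n
      induction n with
      | zero => rfl
      | succ n ih => rw [Function.iterate_succ_apply', Function.iterate_succ_apply', ih, hD]
    rw [h1, der_iter p hp, map_zero]

end Pool.CND
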